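import Mathlib.Data.Fin.Tuple.Basic
import Mathlib.Data.Countable.Defs

/-!
# The notions of the statement

A structure for the language of set theory is a type `N` with a relation `E`; `E x y` means that
the point `x` is a member of the point `y`. All notions below are meant inside such a structure:
formulas and satisfaction, the axioms of ZFC, functions and sizes, dominating families, almost
disjoint families and their spaces, the property of being selectively (a).
-/

namespace SSA2

/-- Formulas of the language of set theory, with free variables indexed by `Fin n`. -/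
inductive Fml : ℕ → Type
  | mem {n : ℕ} (i j : Fin n) : Fml n
  | eq {n : ℕ} (i j : Fin n) : Fml n
  | bot {n : ℕ} : Fml n
  | imp {n : ℕ} (f g : Fml n) : Fml n
  | all {n : ℕ} (f : Fml (n + 1)) : Fml n

section
variable {N : Type} (E : N → N → Prop)

/-- Satisfaction of formulas: `v i ∈ v j`, `v i = v j`, falsity, implication, and
`∀ x` (in `all f` the quantified variable has index `0`). -/
def Sat {n : ℕ} (f : Fml n) : (Fin n → N) → Prop :=
  Fml.rec (motive := fun n _ => (Fin n → N) → Prop)
    (fun i j v => E (v i) (v j))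
    (fun i j v => v i = v j)
    (fun _ => False)
    (fun _ _ satf satg v => satf v → satg v)
    (fun _ satf v => ∀ x : N, satf (Fin.cons x v)) f

/-- The structure satisfies the axioms of ZFC (separation and replacement as schemes). -/
structure ZFC : Prop where
  extensionality : ∀ x y : N, (∀ z, E z x ↔ E z y) → x = y
  foundation : ∀ x : N, (∃ y, E y x) → ∃ y, E y x ∧ ∀ z, E z x → ¬ E z y
  pairing : ∀ x y : N, ∃ z, ∀ w, E w z ↔ w = x ∨ w = y
  union : ∀ x : N, ∃ u, ∀ w, E w u ↔ ∃ y, E y x ∧ E w y
  power : ∀ x : N, ∃ p, ∀ w, E w p ↔ ∀ z, E z w → E z x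
  infinity : ∃ x : N, (∃ e, E e x ∧ ∀ z, ¬ E z e) ∧
    ∀ y, E y x → ∃ s, E s x ∧ ∀ w, E w s ↔ E w y ∨ w = y
  separation : ∀ (n : ℕ) (f : Fml (n + 1)) (v : Fin n → N) (a : N),
    ∃ b, ∀ x, E x b ↔ E x a ∧ Sat E f (Fin.cons x v)
  replacement : ∀ (n : ℕ) (f : Fml (n + 2)) (v : Fin n → N) (a : N),
    (∀ x, E x a → ∃! y, Sat E f (Fin.cons x (Fin.cons y v))) →
      ∃ b, ∀ y, E y b ↔ ∃ x, E x a ∧ Sat E f (Fin.cons x (Fin.cons y v))
  choice : ∀ x : N, (∀ y, E y x → ∃ z, E z y) →
    (∀ y y' z, E y x → E y' x → E z y → E z y' → y = y') →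
    ∃ c, ∀ y, E y x → ∃ z, (E z y ∧ E z c) ∧ ∀ z', E z' y → E z' c → z' = z

/-- `x ⊆ y` -/
def Incl (x y : N) : Prop := ∀ z, E z x → E z y

/-- `z` contains the empty set and with `y` also `y ∪ {y}` -/
def IsInductive (z : N) : Prop := (∃ e, (∀ t, ¬ E t e) ∧ E e z) ∧
  ∀ y, E y z → ∃ s, (∀ t, E t s ↔ E t y ∨ t = y) ∧ E s z

/-- `w` is the set of natural numbers (the least inductive set) -/
def IsOmega (w : N) : Prop := IsInductive E w ∧ ∀ z, IsInductive E z → Incl E w z

/-- `z` is the ordered pair of `a` and `b` (Kuratowski). -/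
def IsOP (z a b : N) : Prop :=
  ∃ s t : N, (∀ w, E w s ↔ w = a) ∧ (∀ w, E w t ↔ w = a ∨ w = b) ∧ (∀ w, E w z ↔ w = s ∨ w = t)

/-- the ordered pair of `a` and `b` is a member of `f` -/
def PairIn (a b f : N) : Prop := ∃ z, IsOP E z a b ∧ E z f

/-- `f` is (the graph of) a function from `a` to `b` -/
def IsFn (f a b : N) : Prop :=
  (∀ z, E z f → ∃ x y, E x a ∧ E y b ∧ IsOP E z x y) ∧ (∀ x, E x a → ∃ y, PairIn E x y f) ∧
  ∀ x y y', PairIn E x y f → PairIn E x y' f → y = y'

/-- `f` is an injective function from `a` to `b` -/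
def IsInjFn (f a b : N) : Prop :=
  IsFn E f a b ∧ ∀ x x' y, PairIn E x y f → PairIn E x' y f → x = x'

/-- the size of `a` is at most the size of `b` -/
def SizeLe (a b : N) : Prop := ∃ f, IsInjFn E f a b

/-- `a` and `b` have the same size: there is a bijection -/
def SizeEq (a b : N) : Prop := ∃ f, IsInjFn E f a b ∧ ∀ y, E y b → ∃ x, PairIn E x y f

/-- `f n ≤ g n` for all but finitely many natural numbers `n` (`w` is the set of natural
numbers) -/
def DomBy (w f g : N) : Prop := ∃ m, E m w ∧ ∀ n a b, E n w → E m n → PairIn E n a f →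
  PairIn E n b g → E a b ∨ a = b

/-- `D` is a dominating family of functions from the natural numbers to the natural numbers -/
def IsDominating (w D : N) : Prop := (∀ f, E f D → IsFn E f w w) ∧
  ∀ g, IsFn E g w w → ∃ f, E f D ∧ DomBy E w g f

/-- `a` is an infinite set of natural numbers -/
def IsInfSub (w a : N) : Prop := Incl E a w ∧ ∀ m, E m w → ∃ n, E n a ∧ E m n

/-- `a` is a finite (bounded) set of natural numbers -/
def IsFinSub (w a : N) : Prop := Incl E a w ∧ ∃ m, E m w ∧ ∀ n, E n a → E n m

/-- `A` is an almost disjoint family: a set of infinite sets of natural numbers, and the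
intersection of any two of them is finite -/
def IsADFamily (w A : N) : Prop := (∀ a, E a A → IsInfSub E w a) ∧
  ∀ a b c, E a A → E b A → a ≠ b → (∀ n, E n c ↔ E n a ∧ E n b) → IsFinSub E w c

/-- `X` is the set of points and `T` the set of open sets of the space of the almost disjoint
family `A`: the points are the natural numbers and the members of `A`; a set `U` of points is
open if for each member `a` of `A` in `U` there is a finite `F` with `a ∖ F ⊆ U` -/
def IsPsiSpace (w A X T : N) : Prop := (∀ z, E z X ↔ E z w ∨ E z A) ∧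
  ∀ U, E U T ↔ Incl E U X ∧ ∀ a, E a A → E a U → ∃ F, IsFinSub E w F ∧
    ∀ n, E n a → ¬ E n F → E n U

/-- `c` is an open cover of the space `X` with topology `T` -/
def IsOpenCover (X T c : N) : Prop := Incl E c T ∧ ∀ x, E x X → ∃ U, E U c ∧ E x U

/-- `D` is dense -/
def IsDenseSet (X T D : N) : Prop :=
  Incl E D X ∧ ∀ U, E U T → (∃ x, E x U) → ∃ x, E x U ∧ E x D

/-- `C` is a closed subset of the space `X` with topology `T` -/
def IsClosedSet (X T C : N) : Prop := Incl E C X ∧ ∃ U, E U T ∧ ∀ z, E z U ↔ E z X ∧ ¬ E z C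

/-- `A` is discrete (in the subspace topology) -/
def IsDiscreteSet (T A : N) : Prop := ∀ x, E x A → ∃ U, E U T ∧ ∀ y, E y U ∧ E y A ↔ y = x

/-- `s` is a sequence, that is, a function defined on the set `w` of natural numbers -/
def IsSeq (w s : N) : Prop := ∃ b, IsFn E s w b

/-- The space `X` with topology `T` is selectively (a): for every sequence `s` of open covers and
every dense set `D` there is a sequence `t` of closed discrete subsets of `D` such that every
point `x` is in the star of the `n`-th set of `t` with respect to the `n`-th cover, for some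
`n`. -/
def IsSelectivelyA (w X T : N) : Prop := ∀ s D, IsSeq E w s →
  (∀ n c, E n w → PairIn E n c s → IsOpenCover E X T c) → IsDenseSet E X T D →
  ∃ t, IsSeq E w t ∧
    (∀ n A, E n w → PairIn E n A t →
      Incl E A D ∧ IsClosedSet E X T A ∧ IsDiscreteSet E T A) ∧
    ∀ x, E x X → ∃ n c A U y, E n w ∧ PairIn E n c s ∧ PairIn E n A t ∧ E U c ∧ E x U ∧
      E y U ∧ E y A

/-- The dominating number is smaller than the never selectively (a) cardinal: there is a
dominating family `D` of least size (its size is the dominating number), and for every set `S`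
of size at most the size of `D` there is an almost disjoint family of the same size as `S`
whose space is selectively (a). -/
def DominatingLtNeverSelectivelyA : Prop := ∃ w D : N, IsOmega E w ∧
  IsDominating E w D ∧ (∀ D', IsDominating E w D' → SizeLe E D D') ∧
  ∀ S, SizeLe E S D → ∃ A X T, IsADFamily E w A ∧ SizeEq E S A ∧ IsPsiSpace E w A X T ∧
    IsSelectivelyA E w X T

end

end SSA2
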